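import Mathlib

/-! Project FD (helper722): the Fon-der-Flaass conjecture, MP_8cac16_co, S10037.
Definitions and the statements of the parts. -/

set_option autoImplicit false
open Finset
open scoped Classical

namespace Pool.Agent.N722.FD

/-- oriented graph without induced oriented 4-cycle -/
structure Ok {V : Type} (R : V → V → Prop) : Prop where
  asym : ∀ u v, R u v → ¬ R v u
  noC4 : ¬ ∃ a b c d : V, R a b ∧ R b c ∧ R c d ∧ R d a ∧ ¬ R a c ∧ ¬ R c a ∧ ¬ R b d ∧ ¬ R d b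

/-- joined by an arc, in one of the two directions -/
def Adj {V : Type} (R : V → V → Prop) (u v : V) : Prop := R u v ∨ R v u

/-- edges of the Fon-der-Flaass 3-graph (repetitions allowed: equal vertices are not joined) -/
def Edge {V : Type} (R : V → V → Prop) (a b c : V) : Prop :=
  (¬ Adj R a b ∧ ¬ Adj R a c) ∨ (¬ Adj R a b ∧ ¬ Adj R b c) ∨ (¬ Adj R a c ∧ ¬ Adj R b c) ∨
  (R a b ∧ R a c) ∨ (R b a ∧ R b c) ∨ (R c a ∧ R c b)

/-- probability weights -/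
structure Wt {V : Type} [Fintype V] (p : V → ℝ) : Prop where
  nn : ∀ v, 0 ≤ p v
  sum : ∑ v, p v = 1

section
variable {V : Type} (R : V → V → Prop) (p : V → ℝ)

/-- weight of the out-neighbours of `v` in `S` -/
noncomputable def dgo (S : Finset V) (v : V) : ℝ := ∑ x ∈ S, if R v x then p x else 0
/-- weight of the vertices of `S` joined to `v` -/
noncomputable def adjm (S : Finset V) (v : V) : ℝ := ∑ x ∈ S, if Adj R v x then p x else 0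
/-- weight of the vertices of `S` not joined to `v` (`v` itself is not joined to `v`) -/
noncomputable def nonm (S : Finset V) (v : V) : ℝ := ∑ x ∈ S, if ¬ Adj R v x then p x else 0
/-- weight of the unordered joined pairs inside `S` -/
noncomputable def inn (S : Finset V) : ℝ := (∑ x ∈ S, p x * adjm R p S x) / 2
/-- weight of the pairs in `A × B` which are not joined -/
noncomputable def crs (A B : Finset V) : ℝ := ∑ a ∈ A, p a * nonm R p B a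

variable [Fintype V]

noncomputable def oo (v : V) : ℝ := dgo R p univ v
noncomputable def hh (v : V) : ℝ := nonm R p univ v
noncomputable def TT : ℝ := ∑ a, ∑ b, ∑ c, if Edge R a b c then p a * p b * p c else 0
noncomputable def dg (v : V) : ℝ := ∑ b, ∑ c, if Edge R v b c then p b * p c else 0
noncomputable def kap (v : V) : ℝ :=
  ∑ a, ∑ b, if ¬ Adj R v a ∧ Adj R v b ∧ ¬ Adj R a b then p a * p b else 0
noncomputable def eta : ℝ := ∑ v, p v * hh R p v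
noncomputable def cc : ℝ := (1 - eta R p) / 2
noncomputable def vr : ℝ := ∑ v, p v * (oo R p v - cc R p) ^ 2
noncomputable def tau : ℝ := ∑ v, p v * kap R p v
noncomputable def k4 : ℝ := ∑ a, ∑ b, ∑ c, ∑ d,
  if Adj R a b ∧ Adj R a c ∧ Adj R a d ∧ Adj R b c ∧ Adj R b d ∧ Adj R c d
    then p a * p b * p c * p d else 0

/-- classes of a partition into three parts -/
noncomputable def cl (W : V → Fin 3) (i : Fin 3) : Finset V := univ.filter fun v => W v = i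
noncomputable def cw (W : V → Fin 3) (i : Fin 3) : ℝ := ∑ v ∈ cl W i, p v
/-- inner degree -/
noncomputable def dd (W : V → Fin 3) (v : V) : ℝ := adjm R p (cl W (W v)) v
/-- weight of the vertices in other classes not joined to `v` -/
noncomputable def zz (W : V → Fin 3) (v : V) : ℝ :=
  ∑ x, if W x ≠ W v ∧ ¬ Adj R v x then p x else 0
/-- defect -/
noncomputable def JJ (W : V → Fin 3) : ℝ := ∑ v, p v * (dd R p W v + zz R p W v)
/-- total inner weight -/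
noncomputable def II (W : V → Fin 3) : ℝ := inn R p (cl W 0) + inn R p (cl W 1) + inn R p (cl W 2)
/-- total weight of the cross pairs which are not joined -/
noncomputable def CC (W : V → Fin 3) : ℝ :=
  crs R p (cl W 0) (cl W 1) + crs R p (cl W 0) (cl W 2) + crs R p (cl W 1) (cl W 2)
end

/-! ### Global part -/

/-- existence of optimal weights (compactness of the simplex, first order conditions; `U` is the
support of the optimal weights) -/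
def S_MIN : Prop := ∀ (V : Type) [Fintype V] (R : V → V → Prop) (p : V → ℝ), Ok R → Wt p →
  TT R p < 4 / 9 →
  ∃ (U : Type) (_ : Fintype U) (R' : U → U → Prop) (q : U → ℝ), Ok R' ∧ Wt q ∧ (∀ v, 0 < q v) ∧
    (∀ v, dg R' q v = TT R' q) ∧ TT R' q < 4 / 9

/-- identities -/
def S_GLOB : Prop := ∀ (V : Type) [Fintype V] (R : V → V → Prop) (p : V → ℝ),
  (∀ u v, R u v → ¬ R v u) → Wt p →
  (∑ v, p v * oo R p v = cc R p) ∧
  (∀ v, dg R p v = hh R p v ^ 2 + 2 * kap R p v + oo R p v ^ 2 +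
    2 * ∑ b, if R b v then p b * oo R p b else 0) ∧
  TT R p = (∑ v, p v * hh R p v ^ 2) + 2 * tau R p + 3 * (cc R p ^ 2 + vr R p)

/-- the condition at one vertex -/
def S_PV : Prop := ∀ (V : Type) [Fintype V] (R : V → V → Prop) (p : V → ℝ),
  (∀ u v, R u v → ¬ R v u) → Wt p → ∀ v,
  (hh R p v - cc R p) ^ 2 + 2 * kap R p v ≤
    dg R p v - 2 * cc R p * (1 - cc R p) + Real.sqrt (vr R p)

/-- first certificate -/
def S_CU : Prop := ∀ (V : Type) [Fintype V] (R : V → V → Prop) (p : V → ℝ), Ok R → Wt p →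
  TT R p < 4 / 9 → eta R p ≤ 1 / 3 + 12705 / 10 ^ 6

/-- second certificate -/
def S_CB : Prop := ∀ (V : Type) [Fintype V] (R : V → V → Prop) (p : V → ℝ), Ok R → Wt p →
  TT R p < 4 / 9 →
  3 * tau R p / (8115 / 10 ^ 7) + vr R p / (3499 / 10 ^ 7) + k4 R p / (2204 / 10 ^ 6) ≤ 1

/-- a good partition, which is optimal under moving one vertex -/
def S_PART : Prop := ∀ (V : Type) [Fintype V] (R : V → V → Prop) (p : V → ℝ),
  (∀ u v, R u v → ¬ R v u) → Wt p → (∀ v, 0 < p v) → eta R p < 1 →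
  ∃ W : V → Fin 3, cw p W 2 ≤ cw p W 0 ∧ cw p W 2 ≤ cw p W 1 ∧
    JJ R p W * (1 - eta R p) ≤ 6 * tau R p + k4 R p ∧
    ∀ v j, adjm R p (cl W (W v)) v - nonm R p (cl W (W v)) v ≤
      adjm R p (cl W j) v - nonm R p (cl W j) v

/-- expansion of `eta` and of the defect -/
def S_EXP : Prop := ∀ (V : Type) [Fintype V] (R : V → V → Prop) (p : V → ℝ) (W : V → Fin 3),
  (∀ u v, R u v → ¬ R v u) → Wt p →
  cw p W 0 + cw p W 1 + cw p W 2 = 1 ∧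
  eta R p = cw p W 0 ^ 2 + cw p W 1 ^ 2 + cw p W 2 ^ 2 - 2 * II R p W + 2 * CC R p W ∧
  JJ R p W = 2 * II R p W + 2 * CC R p W ∧
  (∀ v j, nonm R p (cl W j) v + adjm R p (cl W j) v = cw p W j) ∧
  (∀ v, hh R p v = nonm R p (cl W 0) v + nonm R p (cl W 1) v + nonm R p (cl W 2) v) ∧
  (∀ v, zz R p W v = hh R p v - nonm R p (cl W (W v)) v)

/-- products of degrees and non-degrees at a vertex -/
def S_KZ : Prop := ∀ (V : Type) [Fintype V] (R : V → V → Prop) (p : V → ℝ) (W : V → Fin 3),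
  (∀ u v, R u v → ¬ R v u) → Wt p → ∀ v,
  ∑ j, nonm R p (cl W j) v * adjm R p (cl W j) v ≤ kap R p v + II R p W

/-- the local inequality -/
def S_LOC : Prop := ∀ (V : Type) [Fintype V] (R : V → V → Prop) (p : V → ℝ) (W : V → Fin 3),
  (∀ u v, R u v → ¬ R v u) → Wt p →
  ∀ c0 : ℝ, c0 = (1 - (cw p W 0 ^ 2 + cw p W 1 ^ 2 + cw p W 2 ^ 2)) / 2 →
  cw p W 0 ^ 3 + cw p W 1 ^ 3 + cw p W 2 ^ 3 + 3 * c0 ^ 2 + 6 * c0 * II R p W
    + (6 * (cw p W 0 + cw p W 1) - 6 * c0) * crs R p (cl W 0) (cl W 1)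
    + (6 * (cw p W 0 + cw p W 2) - 6 * c0) * crs R p (cl W 0) (cl W 2)
    + (6 * (cw p W 1 + cw p W 2) - 6 * c0) * crs R p (cl W 1) (cl W 2)
    - 3 * ∑ v, p v * (dd R p W v + zz R p W v) ^ 2
    + 3 * (II R p W - CC R p W) ^ 2 + 3 * vr R p ≤ TT R p

/-- algebra at one vertex -/
def S_TH : Prop := ∀ (z d w : Fin 3 → ℝ) (i : Fin 3) (c S θ wm wM ρ : ℝ),
  (∀ j, 0 ≤ z j) → (∀ j, 0 ≤ d j) → (∀ j, z j + d j = w j) → (∑ j, z j * d j ≤ S) →
  (∀ j, wm ≤ w j) → (∀ j, w j ≤ wM) → (∑ j, w j = 1) → ((∑ j, z j) - c) ^ 2 ≤ ρ →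
  (∀ j, d i - z i ≤ d j - z j) → 0 < θ → 2 * θ < wm → S ≤ θ * (wm - θ) →
  θ < c → ρ < (c - θ) ^ 2 → c < 1 - wM - θ → ρ < (1 - wM - θ - c) ^ 2 →
  d i + ((∑ j, z j) - z i) ≤ θ

/-- the structure of optimal weights with `TT < 4/9` (two passes of numerical estimates) -/
def S_STRUCT : Prop := ∀ (V : Type) [Fintype V] (R : V → V → Prop) (p : V → ℝ),
  Ok R → Wt p → (∀ v, 0 < p v) → (∀ v, dg R p v = TT R p) → TT R p < 4 / 9 →
  ∃ W : V → Fin 3, cw p W 2 ≤ cw p W 0 ∧ cw p W 2 ≤ cw p W 1 ∧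
    cw p W 0 ^ 2 + cw p W 1 ^ 2 + cw p W 2 ^ 2 ≤ 1 / 3 + 13553 / 10 ^ 6 ∧
    ∀ v, dd R p W v + zz R p W v ≤ 48 / 1000

/-- PA: a good partition by averaging over the pairs of joined vertices -/
def S_PA : Prop := ∀ (V : Type) [Fintype V] (R : V → V → Prop) (p : V → ℝ),
  (∀ u v, R u v → ¬ R v u) → Wt p → eta R p < 1 →
  ∃ W : V → Fin 3, JJ R p W * (1 - eta R p) ≤ 6 * tau R p + k4 R p

/-- PM: an optimal partition is optimal under moving one vertex -/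
def S_PM : Prop := ∀ (V : Type) [Fintype V] (R : V → V → Prop) (p : V → ℝ) (W₀ : V → Fin 3),
  (∀ u v, R u v → ¬ R v u) → Wt p → (∀ v, 0 < p v) →
  ∃ W : V → Fin 3, cw p W 2 ≤ cw p W 0 ∧ cw p W 2 ≤ cw p W 1 ∧ JJ R p W ≤ JJ R p W₀ ∧
    ∀ v j, adjm R p (cl W (W v)) v - nonm R p (cl W (W v)) v ≤
      adjm R p (cl W j) v - nonm R p (cl W j) v

/-- LT: the triples with at least two pairs not joined -/
def S_LT : Prop := ∀ (V : Type) [Fintype V] (R : V → V → Prop) (p : V → ℝ) (W : V → Fin 3),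
  (∀ u v, R u v → ¬ R v u) → Wt p →
  cw p W 0 ^ 3 + cw p W 1 ^ 3 + cw p W 2 ^ 3
    + 6 * (cw p W 0 + cw p W 1) * crs R p (cl W 0) (cl W 1)
    + 6 * (cw p W 0 + cw p W 2) * crs R p (cl W 0) (cl W 2)
    + 6 * (cw p W 1 + cw p W 2) * crs R p (cl W 1) (cl W 2)
    - 3 * ∑ v, p v * (dd R p W v + zz R p W v) ^ 2
    ≤ (∑ v, p v * hh R p v ^ 2) + 2 * tau R p

/-- code of three relations -/
def cd (x y z : ℕ) : ℕ := x + (3 * y + 9 * z)

section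
variable {V : Type} (rel : V → V → ℕ) (q3 : ℕ → ℕ → ℕ → ℕ) (q1 : ℕ → ℕ → ℕ)
def F3 (a b c d e : V) : ℕ :=
  q3 (cd (rel a b) (rel a c) (rel b c)) (cd (rel a d) (rel b d) (rel c d))
    (cd (rel a e) (rel b e) (rel c e))
def F1 (a b c d e : V) : ℕ :=
  q1 (cd (rel a b) (rel a c) (rel b c)) (cd (rel a d) (rel a e) (rel d e))
/-- the sum over the ten triples and the fifteen pairs of disjoint pairs -/
def L5 (x : Fin 5 → V) : ℕ :=
    (F3 rel q3 (x 0) (x 1) (x 2) (x 3) (x 4) +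
      (F3 rel q3 (x 0) (x 1) (x 3) (x 2) (x 4) +
      (F3 rel q3 (x 0) (x 1) (x 4) (x 2) (x 3) +
      (F3 rel q3 (x 0) (x 2) (x 3) (x 1) (x 4) +
      (F3 rel q3 (x 0) (x 2) (x 4) (x 1) (x 3) +
      (F3 rel q3 (x 0) (x 3) (x 4) (x 1) (x 2) +
      (F3 rel q3 (x 1) (x 2) (x 3) (x 0) (x 4) +
      (F3 rel q3 (x 1) (x 2) (x 4) (x 0) (x 3) +
      (F3 rel q3 (x 1) (x 3) (x 4) (x 0) (x 2) +
      F3 rel q3 (x 2) (x 3) (x 4) (x 0) (x 1))))))))))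
    + 4 * (F1 rel q1 (x 0) (x 1) (x 2) (x 3) (x 4) +
      (F1 rel q1 (x 0) (x 1) (x 3) (x 2) (x 4) +
      (F1 rel q1 (x 0) (x 1) (x 4) (x 2) (x 3) +
      (F1 rel q1 (x 1) (x 0) (x 2) (x 3) (x 4) +
      (F1 rel q1 (x 1) (x 0) (x 3) (x 2) (x 4) +
      (F1 rel q1 (x 1) (x 0) (x 4) (x 2) (x 3) +
      (F1 rel q1 (x 2) (x 0) (x 1) (x 3) (x 4) +
      (F1 rel q1 (x 2) (x 0) (x 3) (x 1) (x 4) +
      (F1 rel q1 (x 2) (x 0) (x 4) (x 1) (x 3) +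
      (F1 rel q1 (x 3) (x 0) (x 1) (x 2) (x 4) +
      (F1 rel q1 (x 3) (x 0) (x 2) (x 1) (x 4) +
      (F1 rel q1 (x 3) (x 0) (x 4) (x 1) (x 2) +
      (F1 rel q1 (x 4) (x 0) (x 1) (x 2) (x 3) +
      (F1 rel q1 (x 4) (x 0) (x 2) (x 1) (x 3) +
      F1 rel q1 (x 4) (x 0) (x 3) (x 1) (x 2)))))))))))))))
end

/-- GEN: from the tables to the weighted inequality -/
def S_GEN : Prop := ∀ (V : Type) [Fintype V] (rel : V → V → ℕ) (p : V → ℝ)
  (q3 : ℕ → ℕ → ℕ → ℕ) (q1 : ℕ → ℕ → ℕ) (l3 : ℕ → ℕ → ℕ → ℤ) (l1 : ℕ → ℕ → ℤ)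
  (wt : ℕ → ℕ) (nk : ℕ → ℕ → ℕ) (K OFF BD : ℕ),
  (∀ x y, rel x y < 3) → Wt p →
  (∀ c < 27, ∀ i < 27, ∀ j < 27, (q3 c i j : ℤ) =
    ∑ k ∈ range 27, l3 c i k * l3 c j k + OFF - wt c - K * (nk c i + nk c j)) →
  (∀ i < 27, ∀ j < 27, (q1 i j : ℤ) = ∑ k ∈ range 27, l1 i k * l1 j k + OFF) →
  (∀ x : Fin 5 → V, L5 rel q3 q1 x ≤ BD) →
  7 * (OFF : ℝ) - BD / 10 ≤
    (∑ a, ∑ b, ∑ c, p a * p b * p c * (wt (cd (rel a b) (rel a c) (rel b c)) : ℝ))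
    + 2 * K * ∑ a, ∑ b, ∑ c, ∑ d, p a * p b * p c * p d *
        (nk (cd (rel a b) (rel a c) (rel b c)) (cd (rel a d) (rel b d) (rel c d)) : ℝ)

/-! ### Lemma K -/

/-- **Lemma K.** Few inner arcs and few missing cross pairs force a vertex of small out-degree. -/
def S_LEMK : Prop := ∀ (V : Type) (R : V → V → Prop) (p : V → ℝ) (A B : Finset V) (e : ℝ),
  Ok R → (∀ v, 0 ≤ p v) → Disjoint A B → A.Nonempty → 0 < e →
  (∀ a ∈ A, e ≤ dgo R p B a) → (∀ b ∈ B, e ≤ dgo R p A b) →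
  0 ≤ e ^ 2 - 2 * inn R p B - 2 * crs R p A B - e * Real.sqrt (inn R p A) →
  (e ^ 2 - 2 * inn R p B - 2 * crs R p A B - e * Real.sqrt (inn R p A)) ^ 2 ≤
    4 * (e ^ 2 - 2 * inn R p B) * (inn R p A + crs R p A B)

/-- K1: rectangles of inner arcs -/
def S_K1 : Prop := ∀ (V : Type) (R : V → V → Prop) (p : V → ℝ) (A : Finset V) (b b' : V),
  Ok R → (∀ v, 0 ≤ p v) → ¬ Adj R b b' → dgo R p A b ≤ dgo R p A b' →
  (∑ a ∈ A, if R b a ∧ ¬ R b' a then p a else 0) ≤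
    Real.sqrt (inn R p A) + nonm R p A b + nonm R p A b'

/-- K2 -/
def S_K2 : Prop := ∀ (V : Type) (R : V → V → Prop) (p : V → ℝ) (B : Finset V) (a b a' : V),
  Ok R → (∀ v, 0 ≤ p v) → b ∈ B → R a b → R b a' → ¬ Adj R a a' →
  dgo R p B a ≤ dgo R p B a' →
  (∑ x ∈ B, if R a x ∧ R x a' then p x else 0) ≤
    (∑ y ∈ B, if Adj R b y ∧ ¬ R a y then p y else 0) + nonm R p B a

/-- K3: the inequality at the vertex `a`; `bA`, `bB` are strict linear orders on `A` and `B`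
compatible with the out-degrees; `x` is the weight before `a`, `d0` the weight of the vertices
joined to `a` after `a` -/
def S_K3 : Prop := ∀ (V : Type) (R : V → V → Prop) (p : V → ℝ) (A B : Finset V) (e : ℝ)
  (bA bB : V → V → Prop) (a : V),
  Ok R → (∀ v, 0 ≤ p v) → Disjoint A B → 0 < e →
  (∀ a ∈ A, e ≤ dgo R p B a) → (∀ b ∈ B, e ≤ dgo R p A b) → a ∈ A →
  IsStrictTotalOrder V bA → IsStrictTotalOrder V bB →
  (∀ x ∈ A, ∀ y ∈ A, bA x y → dgo R p B x ≤ dgo R p B y) →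
  (∀ x ∈ B, ∀ y ∈ B, bB x y → dgo R p A x ≤ dgo R p A y) →
  2 * inn R p B ≤ e ^ 2 →
  (e ^ 2 / 2 - inn R p B) * (1 - (∑ x ∈ A, if bA x a then p x else 0) / e)
      - crs R p A B - e / 2 * Real.sqrt (inn R p A) ≤
    e * ((∑ x ∈ A, if Adj R a x ∧ bA a x then p x else 0) + nonm R p B a)

/-- K4: summation over an ordered set -/
def S_K4 : Prop := ∀ (V : Type) (p D : V → ℝ) (A : Finset V) (bA : V → V → Prop) (α β : ℝ),
  (∀ v, 0 ≤ p v) → IsStrictTotalOrder V bA → 0 ≤ α → 0 < β → α ≤ β * ∑ a ∈ A, p a →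
  (∀ a ∈ A, 0 ≤ D a) →
  (∀ a ∈ A, α - β * (∑ x ∈ A, if bA x a then p x else 0) ≤ D a) →
  α ^ 2 ≤ 2 * β * ∑ a ∈ A, p a * D a

/-- the numerical inequality behind the choice of `e` -/
def S_NK : Prop := ∀ a b c : ℝ, 0 ≤ a → 0 ≤ b → 0 ≤ c → a + b + 8 / 5 * c ≤ 17 / 100 → a ≤ b →
  0 < 1 - 2 * b - 2 * c - Real.sqrt a ∧
  4 * (1 - 2 * b) * (a + c) < (1 - 2 * b - 2 * c - Real.sqrt a) ^ 2

/-- the staircase -/
def S_ST : Prop := ∀ (V : Type) (R : V → V → Prop) (p : V → ℝ) (A B : Finset V) (e r r' : ℝ),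
  Ok R → (∀ v, 0 ≤ p v) → Disjoint A B → 0 < e →
  inn R p A + inn R p B + 8 / 5 * crs R p A B ≤ 17 / 100 * e ^ 2 →
  r' - e ≤ ∑ a ∈ A, p a →
  r' - e ≤ (∑ a ∈ A, if dgo R p B a < r then p a else 0) ∨
  r - e ≤ (∑ b ∈ B, if dgo R p A b < r' then p b else 0)

/-- the layer cake inequality -/
def S_LC : Prop := ∀ (V : Type) (p o : V → ℝ) (A B : Finset V) (s e : ℝ),
  (∀ v, 0 ≤ p v) → 0 ≤ e → e < s →
  (∀ r r' : ℝ, e < r → r < s → e < r' → r' < s →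
    r' - e ≤ (∑ a ∈ A, if o a < r then p a else 0) ∨
    r - e ≤ (∑ b ∈ B, if o b < r' then p b else 0)) →
  2 / 3 * (s - e) ^ 3 ≤ (∑ a ∈ A, p a * (max 0 (s - max (o a) e)) ^ 2)
    + ∑ b ∈ B, p b * (max 0 (s - max (o b) e)) ^ 2

/-- lower bound for the variance of the out-degree -/
def S_VLOW : Prop := ∀ (V : Type) [Fintype V] (R : V → V → Prop) (p : V → ℝ) (W : V → Fin 3)
  (s e : ℝ), (∀ u v, R u v → ¬ R v u) → Wt p → s = cc R p - cw p W 2 → 0 ≤ e → e < s →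
  (∑ v ∈ cl W 0, p v * (max 0 (s - max (dgo R p (cl W 1) v) e)) ^ 2)
    + (∑ v ∈ cl W 1, p v * (max 0 (s - max (dgo R p (cl W 0) v) e)) ^ 2)
    - 2 * (s - e) * (inn R p (cl W 0) + inn R p (cl W 1)) ≤ vr R p

/-- the final real inequality -/
def S_FIN : Prop := ∀ w0 w1 w2 I0 I1 I2 C1 C2 C3 e s v c0 : ℝ,
  0 ≤ w2 → w2 ≤ w0 → w2 ≤ w1 → w0 + w1 + w2 = 1 →
  w0 ^ 2 + w1 ^ 2 + w2 ^ 2 ≤ 1 / 3 + 13553 / 10 ^ 6 →
  0 ≤ I0 → 0 ≤ I1 → 0 ≤ I2 → 0 ≤ C1 → 0 ≤ C2 → 0 ≤ C3 → 0 ≤ v →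
  c0 = (1 - (w0 ^ 2 + w1 ^ 2 + w2 ^ 2)) / 2 →
  s = c0 + (I0 + I1 + I2) - (C1 + C2 + C3) - w2 →
  0 ≤ e → 17 / 100 * e ^ 2 = I0 + I1 + 8 / 5 * C1 + 1 / 10 ^ 4 * s ^ 2 →
  (0 < s → e < s → 2 / 3 * (s - e) ^ 3 - 2 * (s - e) * (I0 + I1) ≤ v) →
  w0 ^ 3 + w1 ^ 3 + w2 ^ 3 + 3 * c0 ^ 2 + 6 * c0 * (I0 + I1 + I2)
    + (6 * (w0 + w1) - 6 * c0) * C1 + (6 * (w0 + w2) - 6 * c0) * C2
    + (6 * (w1 + w2) - 6 * c0) * C3
    - 288 / 1000 * ((I0 + I1 + I2) + (C1 + C2 + C3)) + 3 * v < 4 / 9 → False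

/-- **Main theorem** in weighted form -/
def S_MAIN : Prop := ∀ (V : Type) [Fintype V] (R : V → V → Prop) (p : V → ℝ), Ok R → Wt p →
  4 / 9 ≤ TT R p

/-- the frozen statement -/
def S_FROZ : Prop := ∀ ε : ℝ, ε > 0 → ∃ N : ℕ, ∀ n : ℕ, n ≥ N →
      ∀ R : Fin n → Fin n → Prop,
        (∀ u v, R u v → ¬ R v u) →
        (¬ ∃ a b c d : Fin n, R a b ∧ R b c ∧ R c d ∧ R d a ∧
            ¬ R a c ∧ ¬ R c a ∧ ¬ R b d ∧ ¬ R d b) →
        (((Finset.univ.powersetCard 3).filter (fun s : Finset (Fin n) =>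
            ∃ x ∈ s, (∀ y ∈ s, y ≠ x → (¬ R x y ∧ ¬ R y x)) ∨
                     (∀ y ∈ s, y ≠ x → R x y))).card : ℝ)
          ≥ (4 / 9 - ε) * ((n.choose 3 : ℕ) : ℝ)

end Pool.Agent.N722.FD
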